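import Pool.Agent.H890.Q.Perc

set_option autoImplicit false
set_option linter.unusedSectionVars false
set_option linter.unusedVariables false
set_option linter.deprecated false

/-! The inequality `P_{p^γ}(A) ≤ P_p(A)^γ` for increasing events, and Bernoulli percolation. -/

namespace Pool.Agent.H890.Tilt

open MeasureTheory Set
open Pool.Agent.H890.Q
open scoped ENNReal

/-- Bernoulli(p) law on `Bool`. -/
noncomputable def bern (p : unitInterval) : Measure Bool :=
  ENNReal.ofReal (p : ℝ) • Measure.dirac true + ENNReal.ofReal (1 - (p : ℝ)) • Measure.dirac false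

theorem bern_true (p : unitInterval) : bern p {true} = ENNReal.ofReal (p : ℝ) := by
  simp [bern]

theorem bern_false (p : unitInterval) : bern p {false} = ENNReal.ofReal (1 - (p : ℝ)) := by
  simp [bern]

instance (p : unitInterval) : IsProbabilityMeasure (bern p) := by
  constructor
  have h0 := p.2.1
  have h1 := p.2.2
  simp only [bern, Measure.coe_add, Measure.coe_smul, Pi.add_apply, Pi.smul_apply,
    measure_univ, smul_eq_mul, mul_one]
  rw [← ENNReal.ofReal_add h0 (by linarith)]
  simp

theorem real_incr {γ : ℝ} (hγ : 1 ≤ γ) {x y h : ℝ} (hx : 0 ≤ x) (hxy : x ≤ y) (hh : 0 ≤ h) :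
    (x + h) ^ γ + y ^ γ ≤ x ^ γ + (y + h) ^ γ := by
  have hc := convexOn_rpow hγ
  rcases eq_or_lt_of_le (show x ≤ y + h by linarith) with he | hlt
  · have h1 : h = 0 := by linarith
    have h2 : x = y := by linarith
    subst h1; subst h2; simp
  · set D := y + h - x with hD
    have hDpos : 0 < D := by rw [hD]; linarith
    set θ := h / D with hθ
    have hθ0 : 0 ≤ θ := div_nonneg hh hDpos.le
    have hθ1 : θ ≤ 1 := by rw [hθ, div_le_one hDpos]; linarith
    have hθD : θ * D = h := by rw [hθ]; field_simp
    have hyh : (0:ℝ) ≤ y + h := by linarith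
    have e1 := hc.2 (show x ∈ Set.Ici (0:ℝ) from hx) (show y + h ∈ Set.Ici (0:ℝ) from hyh)
      (show 0 ≤ 1 - θ by linarith) hθ0 (by ring)
    have e2 := hc.2 (show x ∈ Set.Ici (0:ℝ) from hx) (show y + h ∈ Set.Ici (0:ℝ) from hyh)
      hθ0 (show 0 ≤ 1 - θ by linarith) (by ring)
    simp only [smul_eq_mul] at e1 e2
    have h1 : (1 - θ) * x + θ * (y + h) = x + h := by
      have : (1 - θ) * x + θ * (y + h) = x + θ * D := by rw [hD]; ring
      rw [this, hθD]
    have h2 : θ * x + (1 - θ) * (y + h) = y := by
      have : θ * x + (1 - θ) * (y + h) = (y + h) - θ * D := by rw [hD]; ring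
      rw [this, hθD]; ring
    rw [h1] at e1
    rw [h2] at e2
    linarith

theorem real_step {γ : ℝ} (hγ : 1 ≤ γ) {p a0 a1 b0 b1 : ℝ} (hp0 : 0 ≤ p) (hp1 : p ≤ 1)
    (h0 : 0 ≤ a0) (h01 : a0 ≤ a1) (hb0 : b0 ≤ a0 ^ γ) (hb1 : b1 ≤ a1 ^ γ) :
    p ^ γ * b1 + (1 - p ^ γ) * b0 ≤ (p * a1 + (1 - p) * a0) ^ γ := by
  have hpγ : p ^ γ ≤ 1 := Real.rpow_le_one hp0 hp1 (by linarith)
  have hpγ0 : 0 ≤ p ^ γ := Real.rpow_nonneg hp0 _
  have e := real_incr hγ (x := p * a0) (y := p * a1) (h := (1 - p) * a0)
    (mul_nonneg hp0 h0) (mul_le_mul_of_nonneg_left h01 hp0) (mul_nonneg (by linarith) h0)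
  have e1 : p * a0 + (1 - p) * a0 = a0 := by ring
  rw [e1, Real.mul_rpow hp0 h0, Real.mul_rpow hp0 (h0.trans h01)] at e
  have e2 := mul_le_mul_of_nonneg_left hb1 hpγ0
  have e3 := mul_le_mul_of_nonneg_left hb0 (show 0 ≤ 1 - p ^ γ by linarith)
  nlinarith

section ev
variable {E : Type}

theorem meas_update [DecidableEq E] (e : E) (b : Bool) (s : Set E) {A : Set (E → Bool)}
    (hA : MeasurableSet[cs (insert e s)] A) :
    MeasurableSet[cs s] {ω : E → Bool | Function.update ω e b ∈ A} := by
  have hle : (cs (insert e s)) ≤ MeasurableSpace.map (fun ω : E → Bool => Function.update ω e b)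
      (cs s) := by
    refine iSup₂_le fun i hi => ?_
    rintro B ⟨T, hT, rfl⟩
    show MeasurableSet[cs s] _
    by_cases hie : i = e
    · subst hie
      by_cases hb : b ∈ T
      · have : (fun ω : E → Bool => Function.update ω i b) ⁻¹' ((fun ω : E → Bool => ω i) ⁻¹' T) =
            Set.univ := by
          ext ω; simp [hb]
        rw [this]
        exact @MeasurableSet.univ _ (cs s)
      · have : (fun ω : E → Bool => Function.update ω i b) ⁻¹' ((fun ω : E → Bool => ω i) ⁻¹' T) =
            ∅ := by
          ext ω; simp [hb]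
        rw [this]
        exact @MeasurableSet.empty _ (cs s)
    · have his : i ∈ s := (Set.mem_insert_iff.1 hi).resolve_left hie
      have : (fun ω : E → Bool => Function.update ω e b) ⁻¹' ((fun ω : E → Bool => ω i) ⁻¹' T) =
          (fun ω : E → Bool => ω i) ⁻¹' T := by
        ext ω
        simp [Function.update_of_ne hie]
      rw [this]
      have h : MeasurableSpace.comap (fun ω : E → Bool => ω i) inferInstance ≤ cs s :=
        le_iSup₂_of_le i his le_rfl
      exact h _ ⟨T, hT, rfl⟩
  exact hle A hA

theorem mu_split [DecidableEq E] (μ : Measure Bool) [IsProbabilityMeasure μ] (e : E) (s : Set E) (he : e ∉ s)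
    {A : Set (E → Bool)} (hA : MeasurableSet[cs (insert e s)] A) :
    mu E μ A = μ {true} * mu E μ {ω | Function.update ω e true ∈ A} +
      μ {false} * mu E μ {ω | Function.update ω e false ∈ A} := by
  have hcoord : ∀ b : Bool, mu E μ {ω : E → Bool | ω e = b} = μ {b} := by
    intro b
    have h := Measure.infinitePi_map_eval (fun _ : E => μ) e
    have h2 : mu E μ {ω | ω e = b} = ((mu E μ).map (fun x => x e)) {b} := by
      rw [Measure.map_apply (measurable_pi_apply e) (MeasurableSet.singleton _)]
      rfl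
    rw [h2]; unfold mu; rw [h]
  have hd : Disjoint ({e} : Set E) s := by
    rw [Set.disjoint_singleton_left]; exact he
  have hpart : ∀ b : Bool, mu E μ (A ∩ {ω | ω e = b}) =
      μ {b} * mu E μ {ω | Function.update ω e b ∈ A} := by
    intro b
    have : A ∩ {ω | ω e = b} = {ω | ω e = b} ∩ {ω | Function.update ω e b ∈ A} := by
      ext ω
      simp only [mem_inter_iff, mem_setOf_eq]
      constructor
      · rintro ⟨h1, h2⟩
        refine ⟨h2, ?_⟩
        rw [← h2, Function.update_eq_self]; exact h1
      · rintro ⟨h1, h2⟩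
        rw [← h1, Function.update_eq_self] at h2
        exact ⟨h2, h1⟩
    rw [this, mu_inter μ hd (cs_coord (by simp) b) (meas_update e b s hA), hcoord]
  have hmeas : MeasurableSet ({ω : E → Bool | ω e = true}) :=
    cs_le ({e} : Set E) _ (cs_coord (by simp) true)
  rw [← measure_inter_add_diff A hmeas, hpart true]
  congr 1
  rw [← hpart false]
  congr 1
  ext ω
  simp only [mem_diff, mem_setOf_eq, mem_inter_iff]
  constructor
  · rintro ⟨h1, h2⟩; exact ⟨h1, by simpa using h2⟩
  · rintro ⟨h1, h2⟩; exact ⟨h1, by simpa using h2⟩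

/-- increasing events -/
def Incr (A : Set (E → Bool)) : Prop :=
  ∀ ω ∈ A, ∀ ω' : E → Bool, (∀ e, ω e = true → ω' e = true) → ω' ∈ A

theorem pow_key (p q : unitInterval) {γ : ℝ} (hγ : 1 ≤ γ) (hq : (q : ℝ) = (p : ℝ) ^ γ)
    (s : Finset E) : ∀ (A : Set (E → Bool)), MeasurableSet[cs (s : Set E)] A → Incr A →
      (mu E (bern q) A).toReal ≤ (mu E (bern p) A).toReal ^ γ := by
  classical
  induction s using Finset.induction_on with
  | empty =>
    intro A hA _
    have hbot : cs ((∅ : Finset E) : Set E) = ⊥ := by simp [cs]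
    rw [hbot, MeasurableSpace.measurableSet_bot_iff] at hA
    rcases hA with rfl | rfl
    · simp [Real.zero_rpow (by linarith : γ ≠ 0)]
    · simp
  | insert e s he ih =>
    intro A hA hinc
    rw [Finset.coe_insert] at hA
    have he' : e ∉ (s : Set E) := by simpa using he
    have hm : ∀ b, MeasurableSet[cs (s : Set E)] {ω : E → Bool | Function.update ω e b ∈ A} :=
      fun b => meas_update e b _ hA
    have hi : ∀ b, Incr {ω : E → Bool | Function.update ω e b ∈ A} := by
      intro b ω hω ω' h
      refine hinc _ hω _ ?_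
      intro f
      by_cases hf : f = e
      · subst hf; simp
      · simp only [Function.update_of_ne hf]; exact h f
    have hsub : {ω : E → Bool | Function.update ω e false ∈ A} ⊆
        {ω | Function.update ω e true ∈ A} := by
      intro ω hω
      refine hinc _ hω _ ?_
      intro f
      by_cases hf : f = e
      · subst hf; simp
      · simp [Function.update_of_ne hf]
    have hp0 := p.2.1
    have hp1 := p.2.2
    have hq0 := q.2.1
    have hq1 := q.2.2
    have hr : ∀ r : unitInterval, (mu E (bern r) A).toReal =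
        (r : ℝ) * (mu E (bern r) {ω | Function.update ω e true ∈ A}).toReal +
        (1 - (r : ℝ)) * (mu E (bern r) {ω | Function.update ω e false ∈ A}).toReal := by
      intro r
      rw [mu_split (bern r) e _ he' hA, bern_true, bern_false,
        ENNReal.toReal_add (ENNReal.mul_ne_top ENNReal.ofReal_ne_top (measure_ne_top _ _))
          (ENNReal.mul_ne_top ENNReal.ofReal_ne_top (measure_ne_top _ _)),
        ENNReal.toReal_mul, ENNReal.toReal_mul, ENNReal.toReal_ofReal r.2.1,
        ENNReal.toReal_ofReal (by linarith [r.2.2])]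
    rw [hr q, hr p, hq]
    refine real_step hγ hp0 hp1 ENNReal.toReal_nonneg ?_ (ih _ (hm false) (hi false))
      (ih _ (hm true) (hi true))
    exact ENNReal.toReal_mono (measure_ne_top _ _) (measure_mono hsub)

end ev

section graph
variable {V : Type} (G : SimpleGraph V)

/-- The open subgraph of a configuration. -/
def openGraph (ω : G.edgeSet → Bool) : SimpleGraph V :=
  SimpleGraph.fromEdgeSet {e : Sym2 V | ∃ h : e ∈ G.edgeSet, ω ⟨e, h⟩ = true}

/-- The two-point function of Bernoulli(p) bond percolation on `G`. -/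
noncomputable def tau (p : unitInterval) (u v : V) : ℝ≥0∞ :=
  Measure.infinitePi (fun _ : G.edgeSet => bern p) {ω | (openGraph G ω).Reachable u v}

theorem tau_eq (p : unitInterval) (u v : V) : tau G p u v = tp (bern p) G univ u v := by
  unfold tau tp mu openGraph
  congr 1
  ext ω
  exact rch_iff_reachable

theorem tau_le_one (p : unitInterval) (u v : V) : tau G p u v ≤ 1 := by
  rw [tau_eq]; exact tp_le_one _ _ _ _

theorem tau_comm (p : unitInterval) (u v : V) : tau G p u v = tau G p v u := by
  rw [tau_eq, tau_eq]; exact tp_comm _ _ _ _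

theorem rch_incr (A : Set V) (x y : V) : Incr {ω : G.edgeSet → Bool | Rch G ω A x y} := by
  intro ω hω ω' h
  have hop : ∀ a b, op G ω a b → op G ω' a b := by
    rintro a b ⟨h1, h2⟩
    exact ⟨h1, h _ h2⟩
  change Rch G ω' A x y
  change Rch G ω A x y at hω
  induction hω with
  | refl hx => exact Rch.refl hx
  | tail _ hz ho ih => exact ih.tail hz (hop _ _ ho)

theorem ein_finite (F : Finset V) : (ein G (F : Set V)).Finite := by
  classical
  have : ein G (F : Set V) = Subtype.val ⁻¹' ((F.sym2 : Finset (Sym2 V)) : Set (Sym2 V)) := by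
    ext e
    simp only [ein, mem_setOf_eq, mem_preimage, Finset.mem_coe, Finset.mem_sym2_iff]
  rw [this]
  exact Set.Finite.preimage (Subtype.val_injective.injOn) (Finset.finite_toSet _)

theorem tau_pow [Countable V] (p q : unitInterval) {γ : ℝ} (hγ : 1 ≤ γ)
    (hq : (q : ℝ) = (p : ℝ) ^ γ) (x y : V) :
    (tau G q x y).toReal ≤ (tau G p x y).toReal ^ γ := by
  classical
  rw [tau_eq, tau_eq]
  have hfin : ∀ F : Finset V, (tp (bern q) G (F : Set V) x y).toReal ≤
      (tp (bern p) G (univ : Set V) x y).toReal ^ γ := by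
    intro F
    have h := pow_key p q hγ hq (ein_finite G F).toFinset {ω | Rch G ω (F : Set V) x y}
      (by rw [Set.Finite.coe_toFinset]; exact meas_rch _ _ _) (rch_incr G _ _ _)
    refine h.trans (Real.rpow_le_rpow ENNReal.toReal_nonneg ?_ (by linarith))
    exact ENNReal.toReal_mono (measure_ne_top _ _) (tp_mono _ (subset_univ _) _ _)
  have hU : tp (bern q) G (univ : Set V) x y = ⨆ F : Finset V, tp (bern q) G (F : Set V) x y := by
    unfold tp
    rw [← Directed.measure_iUnion]
    · congr 1
      ext ω
      simp only [mem_setOf_eq, mem_iUnion]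
      constructor
      · intro h
        obtain ⟨F, _, hF⟩ := h.finite
        exact ⟨F, hF⟩
      · rintro ⟨F, hF⟩
        exact hF.mono (subset_univ _)
    · intro F F'
      refine ⟨F ∪ F', ?_, ?_⟩
      · intro ω hω
        exact Rch.mono (by simp) hω
      · intro ω hω
        exact Rch.mono (by simp) hω
  have hle : tp (bern q) G (univ : Set V) x y ≤
      ENNReal.ofReal ((tp (bern p) G (univ : Set V) x y).toReal ^ γ) := by
    rw [hU]
    refine iSup_le fun F => ?_
    have hne : tp (bern q) G (F : Set V) x y ≠ ⊤ := measure_ne_top _ _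
    exact (ENNReal.le_ofReal_iff_toReal_le hne
      (Real.rpow_nonneg ENNReal.toReal_nonneg _)).2 (hfin F)
  have := ENNReal.toReal_mono ENNReal.ofReal_ne_top hle
  rwa [ENNReal.toReal_ofReal (Real.rpow_nonneg ENNReal.toReal_nonneg _)] at this

theorem tau_iso [Countable V] (p : unitInterval) (φ : G ≃g G) (x y : V) :
    tau G p (φ x) (φ y) = tau G p x y := by
  rw [tau_eq, tau_eq]
  have h := tp_iso (bern p) φ univ x y
  rwa [Set.image_univ_of_surjective φ.surjective] at h

end graph

end Pool.Agent.H890.Tilt
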